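import Pool.Agent.H240.GB.Def
import Pool.Agent.H240.CG.Neg
import Pool.Agent.H240.IX.Crv

/-!
# `GB-D`: small perturbations with negative curvature everywhere (helper113)
-/

set_option autoImplicit false
set_option linter.unusedSectionVars false

open Set Filter Topology MeasureTheory
open scoped ContDiff ComplexConjugate Real

noncomputable section

namespace Pool.Agent.H113.GB

open Pool.Agent.Y262.EG Pool.Agent.Y262.EX Pool.Agent.Y262.EL Pool.Agent.Y262.QE
open Pool.Agent.Y264.QR Pool.Agent.H240.SC Pool.Agent.H240.SG Pool.Agent.H240.CG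
open Pool.Agent.H240.GB
open Pool.Agent.Y868.EX (om_open)

theorem dir_cd {v : ℂ} {φ : ℂ → ℝ} (h : ContDiffOn ℝ ∞ φ Om) :
    ContDiffOn ℝ ∞ (fun w => fderiv ℝ φ w v) Om :=
  (h.fderiv_of_isOpen om_open (by simp)).clm_apply contDiffOn_const

/-- the Laplacian of a smooth function is continuous -/
theorem lap_cont {φ : ℂ → ℝ} (h : ContDiffOn ℝ ∞ φ Om) :
    ContinuousOn (fun z => px (px φ) z + py (py φ) z) Om :=
  ((dir_cd (v := 1) (dir_cd (v := 1) h)).continuousOn).add
    ((dir_cd (v := Complex.I) (dir_cd (v := Complex.I) h)).continuousOn)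

theorem curv_cont {φ : ℂ → ℝ} (h : ContDiffOn ℝ ∞ φ Om) : ContinuousOn (curv φ) Om := by
  have h1 : ContinuousOn (fun z => Real.exp (-2 * φ z)) Om :=
    Real.continuous_exp.comp_continuousOn (continuousOn_const.mul h.continuousOn)
  exact (h1.mul (lap_cont h)).neg

/-- the directional derivative of a multiple -/
theorem dir_mul {ψ : ℂ → ℝ} {z : ℂ} (hψ : ContDiffAt ℝ 2 ψ z) (τ : ℝ) (v : ℂ) :
    fderiv ℝ (fun w => fderiv ℝ (fun w => τ * ψ w) w v) z v =
      τ * fderiv ℝ (fun w => fderiv ℝ ψ w v) z v := by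
  have h2 : ∀ᶠ w in 𝓝 z, DifferentiableAt ℝ ψ w := by
    filter_upwards [hψ.eventually (by simp)] with w hw using hw.differentiableAt (by norm_num)
  have h3 : (fun w => fderiv ℝ (fun w => τ * ψ w) w v) =ᶠ[𝓝 z]
      fun w => τ * fderiv ℝ ψ w v := by
    filter_upwards [h2] with w hw2
    rw [fderiv_const_mul hw2]
    rfl
  have d2 : DifferentiableAt ℝ (fun w => fderiv ℝ ψ w v) z := by
    have := (hψ.fderiv_right (m := 1) (by norm_num)).differentiableAt (by norm_num)
    exact this.clm_apply (differentiableAt_const v)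
  rw [h3.fderiv_eq, fderiv_const_mul d2]
  rfl

theorem lap_mul {ψ : ℂ → ℝ} {z : ℂ} (hψ : ContDiffAt ℝ 2 ψ z) (τ : ℝ) :
    px (px fun w => τ * ψ w) z + py (py fun w => τ * ψ w) z =
      τ * (px (px ψ) z + py (py ψ) z) := by
  have h1 : px (px fun w => τ * ψ w) z = τ * px (px ψ) z := dir_mul hψ τ 1
  have h2 : py (py fun w => τ * ψ w) z = τ * py (py ψ) z := dir_mul hψ τ Complex.I
  rw [h1, h2]
  ring

/-- the curvature of the perturbed metric -/
theorem curv_pert {φ a : ℂ → ℝ} {z : ℂ} (hz : z ∈ Om) (hφ : ContDiffOn ℝ ∞ φ Om)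
    (ha : ContDiffOn ℝ ∞ a Om) (τ : ℝ) :
    curv (fun z => φ z + τ * a z) z = Real.exp (-2 * (τ * a z)) *
      (curv φ z - τ * (Real.exp (-2 * φ z) * (px (px a) z + py (py a) z))) := by
  have hOm : Om ∈ 𝓝 z := om_open.mem_nhds hz
  have s1 : ContDiffAt ℝ 2 φ z := (hφ.contDiffAt hOm).of_le (WithTop.coe_le_coe.2 le_top)
  have s2 : ContDiffAt ℝ 2 a z := (ha.contDiffAt hOm).of_le (WithTop.coe_le_coe.2 le_top)
  have s3 : ContDiffAt ℝ 2 (fun z => τ * a z) z := contDiffAt_const.mul s2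
  have h1 := Pool.Agent.H240.IX.A227.lap_add s1 s3
  have h2 := lap_mul s2 τ
  unfold curv
  beta_reduce
  rw [h1, h2]
  have e1 : Real.exp (-2 * (φ z + τ * a z)) = Real.exp (-2 * φ z) * Real.exp (-2 * (τ * a z)) := by
    rw [← Real.exp_add]
    ring_nf
  rw [e1]
  ring

/-- total profiles are convex -/
theorem tp_nn {F : ℝ → ℝ} (hF : Tp F) {x : ℝ} (hx : |x - L0 / 2| < 4 / 5 * L0) :
    0 ≤ deriv (deriv F) x := by
  have h0 := L0p
  rcases eq_or_ne x (L0 / 2) with h | h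
  · subst h
    have hc : Continuous (deriv (deriv F)) := by
      have h1 : ContDiff ℝ ∞ (deriv F) := (contDiff_infty_iff_deriv.1 hF.sm).2
      have h2 : ContDiff ℝ ∞ (deriv (deriv F)) := (contDiff_infty_iff_deriv.1 h1).2
      exact h2.continuous
    have h1 : Tendsto (deriv (deriv F)) (𝓝[≠] (L0 / 2)) (𝓝 (deriv (deriv F) (L0 / 2))) :=
      (hc.tendsto _).mono_left nhdsWithin_le_nhds
    refine ge_of_tendsto h1 ?_
    have hO : IsOpen {x : ℝ | |x - L0 / 2| < 4 / 5 * L0} := isOpen_lt (by fun_prop) continuous_const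
    filter_upwards [self_mem_nhdsWithin, mem_nhdsWithin_of_mem_nhds (hO.mem_nhds hx)] with y hy hy2
    exact (hF.pos y hy hy2).le
  · exact (hF.pos x h hx).le

theorem dd_add {F : ℝ → ℝ} (hF : ContDiff ℝ ∞ F) (τ x : ℝ) :
    Differentiable ℝ (fun x => F x + τ * sqF x) ∧
    Differentiable ℝ (deriv fun x => F x + τ * sqF x) ∧
    deriv (deriv fun x => F x + τ * sqF x) x = deriv (deriv F) x + τ * 2 := by
  have h1 : ContDiff ℝ ∞ (deriv F) := (contDiff_infty_iff_deriv.1 hF).2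
  have k1 : ContDiff ℝ ∞ (deriv sqF) := (contDiff_infty_iff_deriv.1 sqF_cd).2
  have dF : Differentiable ℝ F := hF.differentiable (by simp)
  have dS : Differentiable ℝ sqF := sqF_cd.differentiable (by simp)
  have dF1 : Differentiable ℝ (deriv F) := h1.differentiable (by simp)
  have dS1 : Differentiable ℝ (deriv sqF) := k1.differentiable (by simp)
  have e1 : (deriv fun x => F x + τ * sqF x) = fun x => deriv F x + τ * deriv sqF x := by
    funext y
    exact ((dF y).hasDerivAt.add ((dS y).hasDerivAt.const_mul τ)).deriv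
  refine ⟨dF.add (dS.const_mul τ), ?_, ?_⟩
  · rw [e1]
    exact dF1.add (dS1.const_mul τ)
  · rw [e1]
    have h2 : deriv (fun x => deriv F x + τ * deriv sqF x) x =
        deriv (deriv F) x + τ * deriv (deriv sqF) x :=
      ((dF1 x).hasDerivAt.add ((dS1 x).hasDerivAt.const_mul τ)).deriv
    rw [h2, sqF_dd]

/-- **GB-D** -/
theorem stNeg : StNeg := by
  intro M _ _ pr g X c1 C0 f F O hpr hO hP hX hC
  have h0 := L0p
  have a3 : HfP (et sqF X 1) 1 := hfW (adW_et sqF_cd.contDiffOn hX 1)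
  set a : ℂ → ℝ := Hf (et sqF X 1) 1 with ha
  have hPW : ProfW g c1 := ⟨hP.smooth, hP.hyp⟩
  have hI0 : Inva Om (phi g c1) ac := (phi2W hPW).1
  set φ : ℂ → ℝ := fun z => phi g c1 z + f (pr z) with hφ
  have hprγ : ∀ γ : Gq, ∀ z ∈ Om, pr (ac γ z) = pr z := fun γ z hz =>
    ((hpr.rel z hz (ac γ z) (tAc.1 γ z hz).1).2 ⟨γ, rfl⟩).symm
  have hI1 : Inva Om φ ac := by
    refine ⟨hI0.1.add hC.sm, fun γ w hw => ⟨(hI0.2 γ w hw).1, ?_⟩⟩
    have h1 := (hI0.2 γ w hw).2
    have h2 := hprγ γ w hw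
    simp only [hφ, h2]
    linarith
  have hI2 : ∀ τ : ℝ, Inva Om (fun z => φ z + τ * a z) ac := by
    intro τ
    refine ⟨hI1.1.add (contDiffOn_const.mul a3.sm), fun γ w hw => ⟨(hI1.2 γ w hw).1, ?_⟩⟩
    have h1 := (hI1.2 γ w hw).2
    have h2 : a (ac γ w) = a w := a3.inv γ w hw
    simp only [h2]
    linarith
  have hcol : ∀ z : ℂ, |z.re - L0 / 2| < 4 / 5 * L0 → z ∈ Om := fun z hz =>
    strip_om (stp_near hz.le)
  -- the collar
  have hin : ∀ τ : ℝ, 0 < τ → ∀ z : ℂ, |z.re - L0 / 2| < 4 / 5 * L0 →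
      curv (fun z => φ z + τ * a z) z < 0 := by
    intro τ hτ z hz
    have hO1 : IsOpen {z : ℂ | |z.re - L0 / 2| < 4 / 5 * L0} :=
      isOpen_lt (by fun_prop) continuous_const
    have hev : (fun z => φ z + τ * a z) =ᶠ[𝓝 z] fun u => (fun x => F x + τ * sqF x) u.re := by
      filter_upwards [hO1.mem_nhds hz] with w hw
      have hw' : |w.re - L0 / 2| < 4 / 5 * L0 := hw
      have h1 : φ w = F w.re := hC.rot w hw'
      have h2 : a w = sqF w.re := by
        rw [ha, a3.strip w (stp_near hw'.le), et_near hX hw'.le]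
      rw [h1, h2]
    obtain ⟨d1, d2, d3⟩ := dd_add hC.tp.sm τ z.re
    rw [Pool.Agent.Y993.EX.curv_re hev (Filter.Eventually.of_forall fun x => d1 x) (d2 z.re), d3]
    have h3 := tp_nn hC.tp hz
    have h4 := Real.exp_pos (-2 * (fun x => F x + τ * sqF x) z.re)
    have h5 : 0 < Real.exp (-2 * (fun x => F x + τ * sqF x) z.re) *
        (deriv (deriv F) z.re + τ * 2) := mul_pos h4 (by linarith)
    linarith
  -- the complement of the collar
  set V : Set ℂ := {z | z ∈ Om ∧ ∃ γ : Gq, |(ac γ z).re - L0 / 2| < 4 / 5 * L0} with hV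
  have hVo : IsOpen V := by
    rw [isOpen_iff_mem_nhds]
    rintro z ⟨hz, γ, hγ⟩
    have hOmz : Om ∈ 𝓝 z := om_open.mem_nhds hz
    have hac : ContinuousAt (ac γ) z :=
      ((tAct.hol γ z hz).continuousWithinAt).continuousAt hOmz
    have hO1 : IsOpen {z : ℂ | |z.re - L0 / 2| < 4 / 5 * L0} :=
      isOpen_lt (by fun_prop) continuous_const
    filter_upwards [hOmz, hac.eventually_mem (hO1.mem_nhds hγ)] with w hw1 hw2
    exact ⟨hw1, γ, hw2⟩
  set K : Set ℂ := closure O \ V with hK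
  have hKc : IsCompact K := hO.cpt.diff hVo
  have hKO : K ⊆ Om := fun z hz => hO.sub hz.1
  have hneg : ∀ z ∈ K, curv φ z < 0 := by
    intro z hz
    refine hC.neg z (hKO hz) ?_
    rintro ⟨w, hw, hwz⟩
    have hw' : w.re = L0 / 2 := hw
    have hwn : |w.re - L0 / 2| < 4 / 5 * L0 := by
      rw [hw', sub_self, abs_zero]
      positivity
    obtain ⟨γ, hγ⟩ := (hpr.rel z (hKO hz) w (hcol w hwn)).1 hwz.symm
    exact hz.2 ⟨hKO hz, γ, by rw [hγ]; exact hwn⟩
  obtain ⟨m, hm, hmK⟩ : ∃ m : ℝ, 0 < m ∧ ∀ z ∈ K, curv φ z ≤ -m := by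
    rcases K.eq_empty_or_nonempty with hem | hne
    · exact ⟨1, one_pos, fun z hz => by rw [hem] at hz; exact absurd hz (notMem_empty z)⟩
    · obtain ⟨z1, hz1, hmax⟩ := hKc.exists_isMaxOn hne ((curv_cont hI1.1).mono hKO)
      refine ⟨-curv φ z1, by linarith [hneg z1 hz1], fun z hz => ?_⟩
      have := hmax hz
      simp only [mem_setOf_eq] at this
      linarith
  have hLc : ContinuousOn (fun z => Real.exp (-2 * φ z) * (px (px a) z + py (py a) z)) Om := by
    have h1 : ContinuousOn (fun z => Real.exp (-2 * φ z)) Om :=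
      Real.continuous_exp.comp_continuousOn (continuousOn_const.mul hI1.1.continuousOn)
    exact h1.mul (lap_cont a3.sm)
  obtain ⟨B, hB⟩ := hO.cpt.exists_bound_of_continuousOn (hLc.mono hO.sub)
  refine ⟨m / (|B| + 1), by positivity, fun τ hτ hτ1 z hz => ?_⟩
  show curv (fun z => φ z + τ * a z) z < 0
  by_cases hzV : z ∈ V
  · obtain ⟨-, γ, hγ⟩ := hzV
    rw [← curv_ac (hI2 τ) γ hz]
    exact hin τ hτ _ hγ
  · obtain ⟨γ, hγO⟩ := hO.cov z hz
    rw [← curv_ac (hI2 τ) γ hz]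
    set w := ac γ z with hw
    have hwc : w ∈ closure O := subset_closure hγO
    have hwO : w ∈ Om := hO.sub hwc
    have hwK : w ∈ K := by
      refine ⟨hwc, fun hwV => hzV ?_⟩
      obtain ⟨-, γ', hγ'⟩ := hwV
      refine ⟨hz, γ' * γ, ?_⟩
      rw [tAct.mul γ' γ z hz]
      exact hγ'
    have h1 := hmK w hwK
    have h2 := hB w hwc
    rw [Real.norm_eq_abs] at h2
    rw [curv_pert hwO hI1.1 a3.sm τ]
    rw [lt_div_iff₀ (by positivity)] at hτ1
    have h3 := (abs_le.1 (h2.trans (le_abs_self B))).1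
    have h4 : 0 ≤ |B| := abs_nonneg B
    refine mul_neg_of_pos_of_neg (Real.exp_pos _) ?_
    nlinarith

end Pool.Agent.H113.GB
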